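import Pool.Agent.Helper5.FS.Stmts

set_option autoImplicit false

open Finset

namespace Pool.Agent.Helper5.FS

/-- a block that meets `e` is one of the two blocks -/
theorem ps1_meet {n : ℕ} {Q : Finset (Finset (Fin n))} (hP : Pt Q) {A B C e : Finset (Fin n)}
    (hA : A ∈ Q) (hB : B ∈ Q) (hC : C ∈ Q) (he : e ⊆ A ∪ B) {x : Fin n} (hx : x ∈ e)
    (hxC : x ∈ C) : C = A ∨ C = B := by
  rcases mem_union.1 (he hx) with h | h
  · left
    by_contra hne
    exact disjoint_left.1 (hP.2.1 C hC A hA hne) hxC h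
  · right
    by_contra hne
    exact disjoint_left.1 (hP.2.1 C hC B hB hne) hxC h

/-- an edge in the union of two blocks meets both -/
theorem ps1_pt {n : ℕ} {E Q : Finset (Finset (Fin n))} (hI : Ind E Q) {A B e : Finset (Fin n)}
    (hB : B ∈ Q) (he : e ∈ E) (hs : e ⊆ A ∪ B) : ∃ x ∈ e, x ∈ A := by
  obtain ⟨x, hx, hxB⟩ := not_subset.1 (hI B hB e he)
  refine ⟨x, hx, ?_⟩
  rcases mem_union.1 (hs hx) with h | h
  · exact h
  · exact absurd h hxB

theorem st_PS1 : ST_PS1 := by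
  intro n T E Q hP hI hC
  obtain ⟨S, hS⟩ : ∃ S, S = Q.filter (fun B => 2 * B.card ≤ T) := ⟨_, rfl⟩
  rw [← hS]
  have hSQ : ∀ B ∈ S, B ∈ Q ∧ 2 * B.card ≤ T := by
    intro B hB
    rw [hS, mem_filter] at hB
    exact hB
  have hch : ∀ p : Finset (Fin n) × Finset (Fin n), ∃ e : Finset (Fin n),
      p.1 ∈ Q → p.2 ∈ Q → p.1 ≠ p.2 → e ∈ E ∧ e ⊆ p.1 ∪ p.2 := by
    intro p
    by_cases h : p.1 ∈ Q ∧ p.2 ∈ Q ∧ p.1 ≠ p.2
    · obtain ⟨e, he, hs⟩ := hC p.1 h.1 p.2 h.2.1 h.2.2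
      exact ⟨e, fun _ _ _ => ⟨he, hs⟩⟩
    · exact ⟨∅, fun h1 h2 h3 => absurd ⟨h1, h2, h3⟩ h⟩
  choose f hf using hch
  have h1 : S.offDiag.card ≤ 2 * (E.filter (fun e => e.card ≤ T)).card := by
    refine card_le_mul_card_image_of_maps_to (f := f) ?_ 2 ?_
    · intro p hp
      rw [mem_offDiag] at hp
      obtain ⟨hA, hB, hne⟩ := hp
      obtain ⟨he, hs⟩ := hf p (hSQ _ hA).1 (hSQ _ hB).1 hne
      refine mem_filter.2 ⟨he, ?_⟩
      have h2 := (card_le_card hs).trans (card_union_le _ _)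
      have h3 := (hSQ _ hA).2
      have h4 := (hSQ _ hB).2
      omega
    · intro e _
      rcases (S.offDiag.filter (fun p => f p = e)).eq_empty_or_nonempty with h0 | ⟨p, hp⟩
      · rw [h0, card_empty]
        norm_num
      · rw [mem_filter, mem_offDiag] at hp
        obtain ⟨⟨hA, hB, hne⟩, hfe⟩ := hp
        obtain ⟨he, hs⟩ := hf p (hSQ _ hA).1 (hSQ _ hB).1 hne
        rw [hfe] at he hs
        refine (card_le_card (t := {p, (p.2, p.1)}) ?_).trans card_le_two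
        intro r hr
        rw [mem_filter, mem_offDiag] at hr
        obtain ⟨⟨hA', hB', hne'⟩, hfe'⟩ := hr
        obtain ⟨he', hs'⟩ := hf r (hSQ _ hA').1 (hSQ _ hB').1 hne'
        rw [hfe'] at he' hs'
        obtain ⟨x, hx, hxA⟩ := ps1_pt hI (hSQ _ hB').1 he' hs'
        obtain ⟨y, hy, hyB⟩ := ps1_pt hI (A := r.2) (B := r.1) (hSQ _ hA').1 he'
          (by rw [union_comm]; exact hs')
        have h2 := ps1_meet hP (hSQ _ hA).1 (hSQ _ hB).1 (hSQ _ hA').1 hs hx hxA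
        have h3 := ps1_meet hP (hSQ _ hA).1 (hSQ _ hB).1 (hSQ _ hB').1 hs hy hyB
        rw [mem_insert, mem_singleton]
        rcases h2 with h2 | h2 <;> rcases h3 with h3 | h3
        · exact absurd (h2.trans h3.symm) hne'
        · left
          exact Prod.ext h2 h3
        · right
          exact Prod.ext h2 h3
        · exact absurd (h2.trans h3.symm) hne'
  rw [offDiag_card] at h1
  rw [Nat.mul_sub_one]
  exact h1

end Pool.Agent.Helper5.FS
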